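import Mathlib
import Pool.Agent.H491R3.PE.Near

set_option autoImplicit false

/-!
# Near misses of the powers of two bases: logarithmic measures
-/

namespace Pool.Agent.Q43.LD

open Filter Topology MeasureTheory
open scoped ENNReal

/-- the gauge function `(log (1 / r)) ^ (-s)` -/
noncomputable def gauge (s : ℝ) (r : ℝ≥0∞) : ℝ≥0∞ := ENNReal.ofReal ((Real.log (r.toReal)⁻¹)⁻¹ ^ s)

lemma gauge_le {s : ℝ} (hs : 0 < s) {r : ℝ≥0∞} {δ : ℝ} (hδ : 0 < δ) (hδ1 : δ < 1)
    (h : r ≤ ENNReal.ofReal δ) : gauge s r ≤ ENNReal.ofReal ((Real.log δ⁻¹)⁻¹ ^ s) := by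
  unfold gauge
  refine ENNReal.ofReal_le_ofReal ?_
  have hlog : 0 < Real.log δ⁻¹ := Real.log_pos ((one_lt_inv₀ hδ).2 hδ1)
  have hr : r.toReal ≤ δ := by
    have := ENNReal.toReal_mono ENNReal.ofReal_ne_top h
    rwa [ENNReal.toReal_ofReal hδ.le] at this
  rcases (ENNReal.toReal_nonneg (a := r)).eq_or_lt with h0 | h0
  · rw [← h0, inv_zero, Real.log_zero, inv_zero, Real.zero_rpow hs.ne']
    exact Real.rpow_nonneg (inv_nonneg.2 hlog.le) s
  · have h1 : Real.log δ⁻¹ ≤ Real.log (r.toReal)⁻¹ :=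
      Real.log_le_log (by positivity) (inv_anti₀ h0 hr)
    exact Real.rpow_le_rpow (inv_nonneg.2 (hlog.le.trans h1)) (inv_anti₀ hlog h1) hs.le

/-- Borel-Cantelli for gauge functions -/
theorem hcg {X ι : Type*} [EMetricSpace X] [MeasurableSpace X] [BorelSpace X] [Countable ι]
    {m : ℝ≥0∞ → ℝ≥0∞} (U : ι → Set X) (h : ∑' i, m (Metric.ediam (U i)) ≠ ∞)
    (h0 : Tendsto (fun i => Metric.ediam (U i)) cofinite (𝓝 0)) :
    Measure.mkMetric m {x | {i | x ∈ U i}.Infinite} = 0 := by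
  classical
  have hT : Tendsto (fun F : Finset ι => ∑' i : {i // i ∉ F}, m (Metric.ediam (U i))) atTop (𝓝 0) :=
    ENNReal.tendsto_tsum_compl_atTop_zero h
  have key := Measure.mkMetric_le_liminf_tsum (β := Finset ι) (ι := fun F => {i // i ∉ F})
    {x : X | {i | x ∈ U i}.Infinite} (l := atTop)
    (fun F => ⨆ i : {i // i ∉ F}, Metric.ediam (U i)) ?_ (fun F i => U i) ?_ ?_ m
  · rw [hT.liminf_eq] at key
    exact nonpos_iff_eq_zero.1 key
  · rw [ENNReal.tendsto_nhds_zero] at h0 ⊢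
    intro ε hε
    have h1 : {i | ¬ Metric.ediam (U i) ≤ ε}.Finite := h0 ε hε
    filter_upwards [eventually_ge_atTop h1.toFinset] with F hF
    refine iSup_le fun i => ?_
    by_contra hc
    exact i.2 (hF (by simpa using hc))
  · exact Eventually.of_forall fun F i => le_iSup (fun i : {i // i ∉ F} => Metric.ediam (U i)) i
  · refine Eventually.of_forall fun F x hx => ?_
    obtain ⟨i, hi, hF⟩ := (show {i | x ∈ U i}.Infinite from hx).exists_notMem_finset F
    exact Set.mem_iUnion.2 ⟨⟨i, hF⟩, hi⟩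

open Pool.Agent.H491R3.PE in
/-- a window of bases -/
lemma window {b A0 A1 s : ℝ} (hb : 1 < b) (hA0 : 1 < A0) (hA : A0 < A1) (hs : 2 < s) :
    Measure.mkMetric (gauge s) {a : ℝ | A0 ≤ a ∧ a ≤ A1 ∧ (SS a b).Infinite} = 0 := by
  have hlb : 0 < Real.log b := Real.log_pos hb
  have hl0 : 0 < Real.log A0 := Real.log_pos hA0
  have hA1 : 1 < A1 := hA0.trans hA
  have hl1 : 0 < Real.log A1 := Real.log_pos hA1
  have hs0 : 0 < s := by linarith
  set W : ℝ := (Real.log A1 + Real.log 2) / Real.log b + 1 with hW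
  have hl2 : 0 < Real.log 2 := Real.log_pos (by norm_num)
  have hW1 : 1 ≤ W := by
    have : 0 < (Real.log A1 + Real.log 2) / Real.log b := by positivity
    linarith
  set M : ℕ → ℕ := fun n => ⌊W * n⌋₊ + 1 with hM
  set c : ℝ := Real.log A0 / 4 with hc
  have hc0 : 0 < c := by positivity
  set q : ℝ := (√A0)⁻¹ with hq
  have hsA : 1 < √A0 := by
    rw [Real.lt_sqrt (by norm_num)]
    linarith
  have hsA0 : 0 < √A0 := by linarith
  have hq0 : 0 < q := by positivity
  have hq1 : q < 1 := inv_lt_one_of_one_lt₀ hsA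
  -- large n
  obtain ⟨n0, hn0⟩ : ∃ n0 : ℕ, 1 ≤ n0 ∧ ∀ n ≥ n0, 2 < √A0 ^ n ∧ 4 * A1 * q ^ n < 1 ∧
      c * n ≤ Real.log (4 * A1 * q ^ n)⁻¹ := by
    have e1 : ∀ᶠ n : ℕ in atTop, 2 < √A0 ^ n :=
      (tendsto_pow_atTop_atTop_of_one_lt hsA).eventually_gt_atTop 2
    have e2 : ∀ᶠ n : ℕ in atTop, 4 * A1 * q ^ n < 1 := by
      have := (tendsto_pow_atTop_nhds_zero_of_lt_one hq0.le hq1).const_mul (4 * A1)
      rw [mul_zero] at this
      exact this.eventually_lt_const one_pos
    have e3 : ∀ᶠ n : ℕ in atTop, Real.log (4 * A1) ≤ c * n :=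
      (tendsto_natCast_atTop_atTop.const_mul_atTop hc0).eventually_ge_atTop _
    obtain ⟨n0, h⟩ := eventually_atTop.1 (e1.and (e2.and e3))
    refine ⟨max n0 1, le_max_right _ _, fun n hn => ?_⟩
    obtain ⟨g1, g2, g3⟩ := h n ((le_max_left _ _).trans hn)
    refine ⟨g1, g2, ?_⟩
    rw [Real.log_inv, Real.log_mul (by positivity) (by positivity), Real.log_pow, hq, Real.log_inv,
      Real.log_sqrt (by linarith)]
    have : c = Real.log A0 / 4 := hc
    have e : (n : ℝ) * -(Real.log A0 / 2) = -(2 * (c * n)) := by rw [this]; ring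
    rw [e]
    linarith
  obtain ⟨hn01, hn0⟩ := hn0
  set U : (Σ n : ℕ, Fin (M n)) → Set ℝ := fun p => {a : ℝ | A0 ≤ a ∧ a ≤ A1 ∧ n0 ≤ p.1 ∧
    ((p.1, (p.2 : ℕ)) : ℕ × ℕ) ∈ SS a b} with hU
  -- the diameters
  have hdiam : ∀ p : (Σ n : ℕ, Fin (M n)), n0 ≤ p.1 →
      Metric.ediam (U p) ≤ ENNReal.ofReal (4 * A1 * q ^ p.1) := by
    rintro ⟨n, m⟩ hn
    refine Metric.ediam_le ?_
    have key : ∀ a ∈ U ⟨n, m⟩, ∀ a' ∈ U ⟨n, m⟩, a ≤ a' → a' - a ≤ 4 * A1 * q ^ n := by
      rintro a ⟨h1, h2, _, h4⟩ a' ⟨h1', h2', _, h4'⟩ haa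
      have hn' : n0 ≤ n := hn
      obtain ⟨g1, _, _⟩ := hn0 n hn'
      have ha1 : 1 < a := by linarith
      have ha1' : 1 < a' := by linarith
      have hp : ∀ x : ℝ, A0 ≤ x → √A0 ^ n ≤ √x ^ n := fun x hx =>
        pow_le_pow_left₀ hsA0.le (Real.sqrt_le_sqrt hx) n
      have k1 := approxS ha1 hb h4 (lt_of_lt_of_le g1 (hp a h1))
      have k2 := approxS ha1' hb h4' (lt_of_lt_of_le g1 (hp a' h1'))
      have hb1 : 2 / √a ^ n ≤ 2 * q ^ n := by
        rw [hq, inv_pow, ← div_eq_mul_inv]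
        exact div_le_div_of_nonneg_left (by norm_num) (by positivity) (hp a h1)
      have hb2 : 2 / √a' ^ n ≤ 2 * q ^ n := by
        rw [hq, inv_pow, ← div_eq_mul_inv]
        exact div_le_div_of_nonneg_left (by norm_num) (by positivity) (hp a' h1')
      have k1' := abs_le.1 (k1.trans hb1)
      have k2' := abs_le.1 (k2.trans hb2)
      simp only at k1' k2'
      have hn1 : (1 : ℝ) ≤ n := by exact_mod_cast hn01.trans hn'
      have hlog : Real.log a ≤ Real.log a' := Real.log_le_log (by linarith) haa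
      have h5 : Real.log a' - Real.log a ≤ 4 * q ^ n := by
        have h6 : (n : ℝ) * (Real.log a' - Real.log a) ≤ 4 * q ^ n := by linarith [k1'.1, k2'.2]
        have h7 : Real.log a' - Real.log a ≤ n * (Real.log a' - Real.log a) := by
          have : 0 ≤ Real.log a' - Real.log a := by linarith
          nlinarith
        linarith
      have h8 : a' - a ≤ a' * (Real.log a' - Real.log a) := by
        have h9 := Real.log_le_sub_one_of_pos (show 0 < a / a' by positivity)
        rw [Real.log_div (by positivity) (by positivity)] at h9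
        have h10 : a' * (a / a') = a := by field_simp
        nlinarith
      calc a' - a ≤ a' * (Real.log a' - Real.log a) := h8
        _ ≤ A1 * (4 * q ^ n) := by
            refine mul_le_mul h2' h5 (by linarith) (by linarith)
        _ = _ := by ring
    intro a ha a' ha'
    rw [edist_dist, Real.dist_eq]
    refine ENNReal.ofReal_le_ofReal ?_
    rcases le_total a a' with h | h
    · rw [abs_sub_comm, abs_of_nonneg (by linarith)]
      exact key a ha a' ha' h
    · rw [abs_of_nonneg (by linarith)]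
      exact key a' ha' a ha h
  have hempty : ∀ p : (Σ n : ℕ, Fin (M n)), ¬ n0 ≤ p.1 → U p = ∅ := by
    intro p hp
    ext a
    simp only [hU, Set.mem_ofPred_eq, Set.mem_empty_iff_false, iff_false]
    rintro ⟨_, _, h, _⟩
    exact hp h
  have hg0 : gauge s 0 = 0 := by
    unfold gauge
    rw [ENNReal.toReal_zero, inv_zero, Real.log_zero, inv_zero, Real.zero_rpow hs0.ne',
      ENNReal.ofReal_zero]
  -- the gauges
  have hgau : ∀ p : (Σ n : ℕ, Fin (M n)), gauge s (Metric.ediam (U p)) ≤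
      ENNReal.ofReal ((c * p.1)⁻¹ ^ s) := by
    intro p
    by_cases hp : n0 ≤ p.1
    · obtain ⟨_, g2, g3⟩ := hn0 p.1 hp
      refine (gauge_le hs0 (by positivity) g2 (hdiam p hp)).trans (ENNReal.ofReal_le_ofReal ?_)
      have hp1 : (0 : ℝ) < p.1 := by exact_mod_cast (by omega : 0 < p.1)
      have hcp : 0 < c * p.1 := by positivity
      exact Real.rpow_le_rpow (inv_nonneg.2 (hcp.le.trans g3)) (inv_anti₀ hcp g3) hs0.le
    · rw [hempty p hp]
      simp [hg0]
  have h1 := hcg (m := gauge s) U ?_ ?_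
  · refine measure_mono_null ?_ h1
    rintro a ⟨ha0, ha1, hinf⟩
    have ha : 1 < a := by linarith
    -- the number of m
    have hm : ∀ n m : ℕ, 1 ≤ n → ((n, m) : ℕ × ℕ) ∈ SS a b → m < M n := by
      rintro n m hn ⟨_, h2⟩
      have h2' : |a ^ n - b ^ m| ^ 2 < a ^ n := h2
      have han : 1 ≤ a ^ n := one_le_pow₀ ha.le
      have h3 : |a ^ n - b ^ m| < a ^ n := by
        by_contra hcon
        push Not at hcon
        nlinarith [abs_nonneg (a ^ n - b ^ m)]
      have h4 : b ^ m ≤ 2 * a ^ n := by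
        have := (abs_lt.1 h3).1
        linarith
      have h5 : (m : ℝ) * Real.log b ≤ Real.log 2 + n * Real.log a := by
        have h6 := Real.log_le_log (by positivity) h4
        rw [Real.log_pow, Real.log_mul (by norm_num) (by positivity), Real.log_pow] at h6
        exact h6
      have hn1 : (1 : ℝ) ≤ n := by exact_mod_cast hn
      have h6 : (m : ℝ) ≤ W * n := by
        have h7 : Real.log a ≤ Real.log A1 := Real.log_le_log (by linarith) ha1
        have h8 : (m : ℝ) * Real.log b ≤ (Real.log A1 + Real.log 2) * n := by nlinarith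
        have h9 : (m : ℝ) ≤ (Real.log A1 + Real.log 2) * n / Real.log b := by
          rw [le_div_iff₀ hlb]
          exact h8
        calc (m : ℝ) ≤ (Real.log A1 + Real.log 2) * n / Real.log b := h9
          _ = (Real.log A1 + Real.log 2) / Real.log b * n := by ring
          _ ≤ W * n := by
              rw [hW]
              gcongr
              linarith
      simp only [hM]
      exact Nat.lt_succ_of_le (Nat.le_floor h6)
    -- infinitely many with n ≥ n0
    have hfin : {p : ℕ × ℕ | p ∈ SS a b ∧ p.1 < n0}.Finite := by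
      have : {p : ℕ × ℕ | p ∈ SS a b ∧ p.1 < n0} ⊆
          (⋃ n ∈ Finset.range n0, {p : ℕ × ℕ | p.1 = n ∧ p ∈ SS a b}) := by
        rintro p ⟨hp, hlt⟩
        simp only [Set.mem_iUnion]
        exact ⟨p.1, Finset.mem_range.2 hlt, rfl, hp⟩
      refine Set.Finite.subset (Set.Finite.biUnion (Finset.finite_toSet _) fun n _ => ?_) this
      rcases Nat.eq_zero_or_pos n with h0 | h0
      · refine (Set.finite_singleton ((0, 1) : ℕ × ℕ)).subset ?_
        rintro ⟨x, y⟩ ⟨hx, hp⟩
        have hx' : x = 0 := by rw [← h0]; exact hx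
        have hcop : Nat.Coprime x y := hp.1
        rw [hx', Nat.coprime_zero_left] at hcop
        rw [hx', hcop]
        rfl
      · refine ((Set.finite_lt_nat (M n)).image fun m => (n, m)).subset ?_
        rintro ⟨x, y⟩ ⟨hx, hp⟩
        have hx' : x = n := hx
        subst hx'
        exact ⟨y, hm x y h0 hp, rfl⟩
    have hinf2 : {p : ℕ × ℕ | p ∈ SS a b ∧ n0 ≤ p.1}.Infinite := by
      intro hcon
      refine hinf ((hfin.union hcon).subset fun p hp => ?_)
      rcases lt_or_ge p.1 n0 with h | h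
      · exact Or.inl ⟨hp, h⟩
      · exact Or.inr ⟨hp, h⟩
    have h2 := hinf2.to_subtype
    refine Set.infinite_of_injective_forall_mem
      (f := fun p : {p : ℕ × ℕ | p ∈ SS a b ∧ n0 ≤ p.1} =>
        (⟨p.1.1, ⟨p.1.2, hm p.1.1 p.1.2 (hn01.trans p.2.2) p.2.1⟩⟩ : Σ n : ℕ, Fin (M n))) ?_ ?_
    · rintro ⟨⟨x, y⟩, h⟩ ⟨⟨x', y'⟩, h'⟩ hxy
      simp only [Sigma.mk.injEq] at hxy
      obtain ⟨e1, e2⟩ := hxy
      subst e1
      simp only [heq_eq_eq, Fin.mk.injEq] at e2
      subst e2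
      rfl
    · rintro ⟨p, hp⟩
      exact ⟨ha0, ha1, hp.2, hp.1⟩
  · -- the sum of the gauges
    refine ne_top_of_le_ne_top ?_ (ENNReal.tsum_le_tsum hgau)
    rw [ENNReal.tsum_sigma' (fun p : (Σ n : ℕ, Fin (M n)) => ENNReal.ofReal ((c * p.1)⁻¹ ^ s))]
    have hsum : Summable fun n : ℕ => 2 * W * c⁻¹ ^ s * (1 / (n : ℝ) ^ (s - 1)) :=
      (Real.summable_one_div_nat_rpow.2 (by linarith)).mul_left _
    refine ne_top_of_le_ne_top (b := ENNReal.ofReal (∑' n : ℕ, 2 * W * c⁻¹ ^ s *
      (1 / (n : ℝ) ^ (s - 1)))) ENNReal.ofReal_ne_top ?_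
    rw [ENNReal.ofReal_tsum_of_nonneg (fun n => by positivity) hsum]
    refine ENNReal.tsum_le_tsum fun n => ?_
    show ∑' _ : Fin (M n), ENNReal.ofReal ((c * (n : ℝ))⁻¹ ^ s) ≤ _
    rw [ENNReal.tsum_const, ENat.card_eq_coe_fintype_card, Fintype.card_fin]
    simp only [ENat.toENNReal_coe]
    rcases Nat.eq_zero_or_pos n with h0 | h0
    · rw [h0]
      simp [Real.zero_rpow hs0.ne']
    · have hn : (0 : ℝ) < n := by exact_mod_cast h0
      have hn1 : (1 : ℝ) ≤ n := by exact_mod_cast h0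
      rw [← ENNReal.ofReal_natCast, ← ENNReal.ofReal_mul (Nat.cast_nonneg _)]
      refine ENNReal.ofReal_le_ofReal ?_
      have hMn : (M n : ℝ) ≤ 2 * W * n := by
        simp only [hM]
        push_cast
        have : (⌊W * (n : ℝ)⌋₊ : ℝ) ≤ W * n := Nat.floor_le (by positivity)
        nlinarith
      have e : (c * (n : ℝ))⁻¹ ^ s = c⁻¹ ^ s * (1 / (n : ℝ) ^ s) := by
        rw [mul_inv, Real.mul_rpow (by positivity) (by positivity), Real.inv_rpow hn.le, one_div]
      have e2 : (n : ℝ) ^ s = n * (n : ℝ) ^ (s - 1) := by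
        rw [mul_comm, ← Real.rpow_add_one hn.ne']
        congr 1
        ring
      rw [e]
      calc (M n : ℝ) * (c⁻¹ ^ s * (1 / (n : ℝ) ^ s)) ≤ 2 * W * n * (c⁻¹ ^ s * (1 / (n : ℝ) ^ s)) := by
            gcongr
        _ = _ := by
            rw [e2]
            field_simp
  · -- the diameters tend to zero
    rw [ENNReal.tendsto_nhds_zero]
    intro ε hε
    have h2 : Tendsto (fun n : ℕ => ENNReal.ofReal (4 * A1 * q ^ n)) atTop (𝓝 0) := by
      have := (tendsto_pow_atTop_nhds_zero_of_lt_one hq0.le hq1).const_mul (4 * A1)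
      rw [mul_zero] at this
      have h3 := ENNReal.tendsto_ofReal this
      rwa [ENNReal.ofReal_zero] at h3
    obtain ⟨N, hN⟩ := eventually_atTop.1 ((ENNReal.tendsto_nhds_zero.1 h2) ε hε)
    have hfin : {p : (Σ n : ℕ, Fin (M n)) | p.1 < N}.Finite := by
      have : {p : (Σ n : ℕ, Fin (M n)) | p.1 < N} ⊆ ⋃ n ∈ Finset.range N, Set.range (Sigma.mk n) := by
        rintro ⟨n, m⟩ hp
        simp only [Set.mem_iUnion]
        exact ⟨n, Finset.mem_range.2 hp, m, rfl⟩
      exact Set.Finite.subset (Set.Finite.biUnion (Finset.finite_toSet _) fun n _ =>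
        Set.finite_range _) this
    refine hfin.subset ?_
    intro p hp
    by_contra hcon
    have hcon' : N ≤ p.1 := not_lt.1 hcon
    refine hp ?_
    show Metric.ediam (U p) ≤ ε
    by_cases hp0 : n0 ≤ p.1
    · exact (hdiam p hp0).trans (hN _ hcon')
    · rw [hempty p hp0]
      simp

end Pool.Agent.Q43.LD
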